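import Pool.Agent.W_24bb3a_h70.Bs5
import Pool.Agent.W_24bb3a_h70.GrpG
import Pool.Agent.W_mrdp_h26.GrC

/-!
# Listable sets are Diophantine over the positive one-relator group `⟨x, y | x y x x y y⟩`

For every recursively enumerable set `W` of natural numbers there is a fixed finite system of
equations over `G = ⟨x, y | x y x x y y⟩` in the variables `z₀, z₁, ...` which has a solution with
`z₀ = y ^ (-2 n)` if and only if `n ∈ W`.  In particular the Diophantine problem of the positive
one-relator group `G` is undecidable, already for one fixed system of equations to which a single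
equation `z₀ = y ^ (-2 n)` is added.
-/

set_option autoImplicit false

namespace Pool.Agent.Results.MP_a21d4e_al.ListableSets

/-- the positive word `x y x x y y` (`x` and `y` are the letters `0` and `1`) -/
def relator : List (Fin 2) := [0, 1, 0, 0, 1, 1]

/-- the positive one-relator group `⟨x, y | x y x x y y⟩` -/
abbrev G : Type :=
  PresentedGroup ({FreeGroup.mk (relator.map (fun i => (i, true)))} : Set (FreeGroup (Fin 2)))

/-- the value in `G` of a word in the constants `x = 0`, `y = 1` and the variables `z₀, z₁, ...`,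
when the elements `f 0, f 1, ...` are substituted for the variables -/
def value (f : ℕ → G) (w : FreeGroup (Fin 2 ⊕ ℕ)) : G :=
  FreeGroup.lift (Sum.elim (fun i : Fin 2 => (PresentedGroup.of i : G)) f) w

/-- the finite system of equations `w = 1`, `w ∈ L`, has a solution in `G` with
`z₀ = y ^ (-2 n)` -/
def SolvableAt (L : List (FreeGroup (Fin 2 ⊕ ℕ))) (n : ℕ) : Prop :=
  ∃ f : ℕ → G, f 0 = (PresentedGroup.of 1 : G) ^ (-2 * (n : ℤ)) ∧ ∀ w ∈ L, value f w = 1

open BSU in
theorem solvable_iff (L : List Atom) (n : ℕ) :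
    SolvableAt ((cExp (emb [((1 : Fin 2), false)]) 0 ++
      L.flatMap (atomW (emb [(0, true), (1, true)]) (emb [(1, false)]))).map FreeGroup.mk) n ↔
    Solves L n := by
  have key := isBS_B.sys_iff (Or.inr rfl) (PresentedGroup.of : Fin 2 → GB)
    (wa := [(0, true), (1, true)]) (wt := [(1, false)]) (by simp [FreeGroup.lift_mk])
    (lift_single_false _ _) L n
  rw [← key]
  have hev : ∀ (f : ℕ → G) (w : List (Ltr 2)),
      value f (FreeGroup.mk w) = ev (Sum.elim (PresentedGroup.of : Fin 2 → GB) f) w :=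
    fun f w => rfl
  have hpar : ∀ f : ℕ → G,
      ev (Sum.elim (PresentedGroup.of : Fin 2 → GB) f) (parW (emb [(1, false)]) n) = 1 ↔
        f 0 = (PresentedGroup.of 1 : G) ^ (-2 * (n : ℤ)) := by
    intro f
    have hT : ev (Sum.elim (PresentedGroup.of : Fin 2 → GB) f) (emb [(1, false)]) =
        (PresentedGroup.of 1 : GB)⁻¹ := by
      rw [ev_emb]
      exact lift_single_false _ _
    unfold parW
    rw [ev_append, ev_ivar, ev_rep, ev_append, hT, Sum.elim_inr, inv_mul_eq_one]
    have h2 : ((PresentedGroup.of 1 : GB)⁻¹ * (PresentedGroup.of 1 : GB)⁻¹) ^ n =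
        (PresentedGroup.of 1 : GB) ^ (-2 * (n : ℤ)) := by
      rw [zpow_mul, zpow_natCast, zpow_neg, zpow_ofNat, pow_two, mul_inv_rev]
    rw [h2]
    exact Iff.rfl
  constructor
  · rintro ⟨f, h0, hf⟩
    refine ⟨f, fun w hw => ?_⟩
    simp only [sysW, List.mem_append, List.mem_cons] at hw
    rcases hw with hw | rfl | hw
    · rw [← hev]
      exact hf _ (List.mem_map.2 ⟨w, List.mem_append.2 (Or.inl hw), rfl⟩)
    · exact (hpar f).2 h0
    · rw [← hev]
      exact hf _ (List.mem_map.2 ⟨w, List.mem_append.2 (Or.inr hw), rfl⟩)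
  · rintro ⟨f, hf⟩
    refine ⟨f, (hpar f).1 (hf _ (by simp [sysW])), fun w hw => ?_⟩
    obtain ⟨w', hw', rfl⟩ := List.mem_map.1 hw
    rw [hev]
    refine hf w' ?_
    simp only [sysW, List.mem_append, List.mem_cons]
    rcases List.mem_append.1 hw' with h | h
    · exact Or.inl h
    · exact Or.inr (Or.inr h)

theorem exists_system {P : ℕ → Prop} (hP : Mrdp.DP (fun v : ℕ → ℕ => P (v 0))) :
    ∃ L : List (FreeGroup (Fin 2 ⊕ ℕ)), ∀ n : ℕ, P n ↔ SolvableAt L n := by
  obtain ⟨L, hL⟩ := BSU.D.solves (BSV.DP_to_D2 hP)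
  refine ⟨(BSU.cExp (BSU.emb [((1 : Fin 2), false)]) 0 ++
      L.flatMap (BSU.atomW (BSU.emb [(0, true), (1, true)]) (BSU.emb [(1, false)]))).map
        FreeGroup.mk, fun n => ?_⟩
  rw [solvable_iff L n, hL]
  constructor
  · intro hn
    exact ⟨fun _ => (n, 0), rfl, n, rfl, hn⟩
  · rintro ⟨v, h0, a, ha, hpa⟩
    have : a = n := by
      have h1 : (a : ℤ) = (v 0).1 := ha
      rw [h0] at h1
      exact_mod_cast h1
    rwa [← this]

theorem result :
    (∀ W : ℕ → Prop, REPred W →
      ∃ L : List (FreeGroup (Fin 2 ⊕ ℕ)), ∀ n : ℕ, W n ↔ SolvableAt L n) ∧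
    ∃ L : List (FreeGroup (Fin 2 ⊕ ℕ)), ¬ ComputablePred (SolvableAt L) := by
  refine ⟨fun W hW => exists_system (Mrdp.re_DP hW), ?_⟩
  obtain ⟨P, hP, hPn⟩ := Mrdp.exists_DP_not_computable
  obtain ⟨L, hL⟩ := exists_system hP
  refine ⟨L, fun h => hPn ?_⟩
  have : P = SolvableAt L := funext fun n => propext (hL n)
  rw [this]
  exact h

end Pool.Agent.Results.MP_a21d4e_al.ListableSets
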